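import Pool.Agent.helper47.SC.Spec

/-! Row `sc:QSM`. -/

open scoped Topology ContDiff
open Set Filter Metric MeasureTheory

namespace Pool.Agent.SC

theorem QSM_exp_six : (100 : ℝ) ≤ Real.exp 6 := by
  have h1 : (2.7 : ℝ) ≤ Real.exp 1 := by
    have := Real.exp_one_gt_d9
    linarith
  have h2 : Real.exp 6 = (Real.exp 1) ^ 6 := by
    rw [← Real.exp_nat_mul]
    norm_num
  rw [h2]
  calc (100 : ℝ) ≤ (2.7 : ℝ) ^ 6 := by norm_num
    _ ≤ (Real.exp 1) ^ 6 := by gcongr

theorem QSM_factor (a e : ℝ) (ha : 1 / 100 ≤ a) (he : 0 < e) :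
    Real.exp (-3 * e) ≤ a ^ (e / 2) := by
  have h1 : Real.exp (-6) ≤ a := by
    rw [Real.exp_neg]
    have h2 : (Real.exp 6)⁻¹ ≤ (100 : ℝ)⁻¹ := by
      apply inv_anti₀ (by norm_num) QSM_exp_six
    linarith
  have h3 : Real.exp (-3 * e) = (Real.exp (-6)) ^ (e / 2) := by
    rw [← Real.exp_mul]
    congr 1
    ring
  rw [h3]
  exact Real.rpow_le_rpow (Real.exp_pos _).le h1 (by linarith)

theorem QSM (h1 : NSQ_stmt) (h2 : EPS_stmt) : QSM_stmt := by
  intro s m hm hs k q hq
  obtain ⟨htri, -, -, -, -, hnn, -, -, -, -, -, -⟩ := h1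
  obtain ⟨hpos, -, hsum, -⟩ := h2 m hm
  by_contra hcon
  have hcon : 529 / 10000 < nsq q.2 := lt_of_not_ge hcon
  have hsq : (23 : ℝ) / 100 < Real.sqrt (nsq q.2) := by
    apply Real.lt_sqrt_of_sq_lt
    norm_num
    exact hcon
  have hfac : ∀ i, 1 / 100 ≤ nsq (q.2 - s i) := by
    intro i
    have ht := htri (q.2 - s i) (s i)
    rw [sub_add_cancel] at ht
    have h8 : Real.sqrt (nsq (s i)) ≤ 1 / 8 := by
      apply Real.sqrt_le_iff.2
      refine ⟨by norm_num, ?_⟩
      have := hs i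
      norm_num at this ⊢
      linarith
    have h9 : (1 : ℝ) / 10 ≤ Real.sqrt (nsq (q.2 - s i)) := by linarith
    have h10 := Real.sq_sqrt (hnn (q.2 - s i))
    nlinarith [h9, h10, Real.sqrt_nonneg (nsq (q.2 - s i))]
  have hprod : Real.exp (-1 / 3) ≤ ∏ i ∈ Finset.range k, (nsq (q.2 - s i)) ^ (eps m i / 2) := by
    calc Real.exp (-1 / 3) ≤ Real.exp (∑ i ∈ Finset.range k, -3 * eps m i) := by
          apply Real.exp_le_exp.2
          rw [← Finset.mul_sum]
          have := hsum k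
          linarith
      _ = ∏ i ∈ Finset.range k, Real.exp (-3 * eps m i) := by rw [Real.exp_sum]
      _ ≤ _ := by
          apply Finset.prod_le_prod
          · intro i _
            exact (Real.exp_pos _).le
          · intro i _
            exact QSM_factor _ _ (hfac i) (hpos i)
  have hroot : (1 : ℝ) ≤ Real.sqrt (1 + ‖q.1‖ ^ 2) := by
    apply Real.one_le_sqrt.2
    have := sq_nonneg ‖q.1‖
    linarith
  have hexp : Real.exp (64 * (529 / 10000)) ≤ Real.exp (64 * nsq q.2) := by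
    apply Real.exp_le_exp.2
    linarith
  have hfin : Real.exp 3 ≤ QQ s m k q := by
    unfold QQ
    calc Real.exp 3 ≤ Real.exp (-1 / 3) * Real.exp (64 * (529 / 10000)) := by
          rw [← Real.exp_add]
          apply Real.exp_le_exp.2
          norm_num
      _ = 1 * Real.exp (-1 / 3) * Real.exp (64 * (529 / 10000)) := by ring
      _ ≤ _ := by
          have hp0 : (0 : ℝ) ≤ ∏ i ∈ Finset.range k, (nsq (q.2 - s i)) ^ (eps m i / 2) :=
            (Real.exp_pos _).le.trans hprod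
          exact mul_le_mul (mul_le_mul hroot hprod (Real.exp_pos _).le (Real.sqrt_nonneg _)) hexp
            (Real.exp_pos _).le (mul_nonneg (Real.sqrt_nonneg _) hp0)
  linarith

end Pool.Agent.SC
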