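import Pool.Agent.helper83.SC.Stmt

/-!
SC project (MP_d2d7b9_gt), module BP1: positivity and comparison of the functional `B`.
-/

open scoped Pointwise ContDiff
open MeasureTheory Set Filter Topology

set_option linter.unusedVariables false

namespace Pool.Agent.helper83.SC

/-- Simultaneous smooth approximation of a family. -/
lemma BP1_approx (hsm : exists_smooth_stmt) {m : ℕ} {F : Fin m → E m → ℝ} (hF : ∀ j, CV (F j)) :
    ∃ g : ℕ → Fin m → E m → ℝ, (∀ k j, ContDiff ℝ ∞ (g k j)) ∧ (∀ k j, CV (g k j)) ∧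
      ∀ j x, Tendsto (fun k => g k j x) atTop (𝓝 (F j x)) := by
  choose G hG hlim using fun j => hsm (hF j)
  exact ⟨fun k j => G j k, fun k j => (hG j k).1, fun k j => (hG j k).2, hlim⟩

lemma BP1_integrable {m : ℕ} {φ u : E m → ℝ} (hφ : Test φ) (hu : Continuous u) :
    Integrable (fun x => φ x * u x) :=
  (hφ.1.continuous.mul hu).integrable_of_hasCompactSupport hφ.2.1.mul_right

lemma BP1_cont_mD {m : ℕ} {M : Fin m → E m → Matrix (Fin m) (Fin m) ℝ}
    (hM : ∀ j, Continuous (M j)) : Continuous (fun x => mD (fun j => M j x)) := by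
  unfold mD
  refine continuous_const.mul (continuous_finsetSum _ fun σ _ => ?_)
  refine Continuous.matrix_det ?_
  refine continuous_matrix fun i j => ?_
  simp only [Matrix.of_apply]
  exact (hM (σ i)).matrix_elem i j

lemma BP1_cv_sum {m : ℕ} {F : Fin m → E m → ℝ} (hF : ∀ j, CV (F j)) :
    CV (fun x => ∑ j, F j x) := by
  have key : ∀ s : Finset (Fin m), ConvexOn ℝ univ (fun x => ∑ j ∈ s, F j x) := by
    intro s
    induction s using Finset.induction_on with
    | empty => simpa using convexOn_const (𝕜 := ℝ) (s := (univ : Set (E m))) (0 : ℝ) convex_univ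
    | insert a s ha ih =>
      simp only [Finset.sum_insert ha]
      exact (hF a).add ih
  exact key Finset.univ

theorem B_nonneg_of (hmn : mD_nonneg_stmt) (hpsd : hess_psd_stmt) (hsm : exists_smooth_stmt)
    (hBs : B_smooth_stmt) (hB : tendsto_B_stmt) : B_nonneg_stmt := by
  intro m φ F hφ hF
  obtain ⟨g, hg1, hg2, hlim⟩ := BP1_approx hsm hF
  refine ge_of_tendsto' (hB hφ hF hg2 hlim) fun k => ?_
  rw [hBs hφ (hg1 k) (hg2 k)]
  exact integral_nonneg fun x =>
    mul_nonneg (hφ.2.2 x) (hmn fun j => hpsd (hg1 k j) (hg2 k j) x)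

theorem B_diag_of (hmd : mD_diag_stmt) (hsm : exists_smooth_stmt) (hA : tendsto_A_stmt)
    (hAs : A_smooth_stmt) (hBs : B_smooth_stmt) (hB : tendsto_B_stmt) : B_diag_stmt := by
  intro m φ g hφ hg
  obtain ⟨G, hG, hlim⟩ := hsm hg
  have h1 : Tendsto (fun k => B φ (fun _ : Fin m => G k)) atTop (𝓝 (B φ (fun _ => g))) :=
    hB hφ (fun _ => hg) (fun k _ => (hG k).2) (fun _ x => hlim x)
  have h2 : Tendsto (fun k => A φ (G k)) atTop (𝓝 (A φ g)) :=
    hA hφ hg (fun k => (hG k).2) hlim
  refine tendsto_nhds_unique (h1.congr fun k => ?_) h2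
  rw [hBs hφ (fun _ => (hG k).1) (fun _ => (hG k).2), hAs hφ (hG k).1 (hG k).2]
  simp only [show ∀ x, mD (fun _ : Fin m => hess (G k) x) = (hess (G k) x).det from fun x => hmd _]

theorem B_le_A_of (hle : mD_le_det_stmt) (hpsd : hess_psd_stmt) (hsum : hess_sum_stmt)
    (hch : continuous_hess_stmt) (hsm : exists_smooth_stmt) (hA : tendsto_A_stmt)
    (hAs : A_smooth_stmt) (hBs : B_smooth_stmt) (hB : tendsto_B_stmt) : B_le_A_stmt := by
  intro m φ F hφ hF
  obtain ⟨g, hg1, hg2, hlim⟩ := BP1_approx hsm hF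
  have h1 : Tendsto (fun k => (m.factorial : ℝ) * B φ (g k)) atTop
      (𝓝 ((m.factorial : ℝ) * B φ F)) := (hB hφ hF hg2 hlim).const_mul _
  have h2 : Tendsto (fun k => A φ (fun x => ∑ j, g k j x)) atTop
      (𝓝 (A φ (fun x => ∑ j, F j x))) :=
    hA hφ (BP1_cv_sum hF) (fun k => BP1_cv_sum (hg2 k))
      (fun x => tendsto_finsetSum _ fun j _ => hlim j x)
  refine le_of_tendsto_of_tendsto' h1 h2 fun k => ?_
  rw [hBs hφ (hg1 k) (hg2 k),
    hAs hφ (ContDiff.sum fun j _ => hg1 k j) (BP1_cv_sum (hg2 k)), ← integral_const_mul]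
  have e1 : ∀ x, hess (fun y => ∑ j, g k j y) x = ∑ j, hess (g k j) x := fun x =>
    hsum Finset.univ (hg1 k) x
  refine integral_mono ?_ ?_ fun x => ?_
  · exact (BP1_integrable hφ (BP1_cont_mD fun j => hch (hg1 k j))).const_mul _
  · refine BP1_integrable hφ ?_
    exact (hch (ContDiff.sum fun j _ => hg1 k j)).matrix_det
  · simp only [e1]
    have := hle (M := fun j => hess (g k j) x) (fun j => hpsd (hg1 k j) (hg2 k j) x)
    calc (m.factorial : ℝ) * (φ x * mD (fun j => hess (g k j) x))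
        = φ x * ((m.factorial : ℝ) * mD (fun j => hess (g k j) x)) := by ring
      _ ≤ _ := mul_le_mul_of_nonneg_left this (hφ.2.2 x)

theorem B_mono_of (hmono : mD_mono_stmt) (hpsd : hess_psd_stmt) (hadd : hess_add_stmt)
    (hch : continuous_hess_stmt) (hsm : exists_smooth_stmt)
    (hBs : B_smooth_stmt) (hB : tendsto_B_stmt) : B_mono_stmt := by
  intro m φ F G hφ hF hG
  obtain ⟨f, hf1, hf2, hflim⟩ := BP1_approx hsm hF
  obtain ⟨g, hg1, hg2, hglim⟩ := BP1_approx hsm (F := fun j x => G j x - F j x) hG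
  have hGc : ∀ j, CV (G j) := by
    intro j
    have h := (hF j).add (hG j)
    have e : (F j + fun x => G j x - F j x) = G j := by
      funext x; simp
    rw [e] at h
    exact h
  have hs1 : ∀ k j, ContDiff ℝ ∞ (fun x => f k j x + g k j x) := fun k j => (hf1 k j).add (hg1 k j)
  have hs2 : ∀ k j, CV (fun x => f k j x + g k j x) := fun k j => (hf2 k j).add (hg2 k j)
  have hslim : ∀ j x, Tendsto (fun k => f k j x + g k j x) atTop (𝓝 (G j x)) := by
    intro j x
    have := (hflim j x).add (hglim j x)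
    simpa using this
  refine le_of_tendsto_of_tendsto' (hB hφ hF hf2 hflim) (hB hφ hGc hs2 hslim) fun k => ?_
  rw [hBs hφ (hf1 k) (hf2 k), hBs hφ (hs1 k) (hs2 k)]
  refine integral_mono ?_ ?_ fun x => ?_
  · exact BP1_integrable hφ (BP1_cont_mD fun j => hch (hf1 k j))
  · exact BP1_integrable hφ (BP1_cont_mD fun j => hch (hs1 k j))
  · refine mul_le_mul_of_nonneg_left ?_ (hφ.2.2 x)
    refine hmono (fun j => hpsd (hf1 k j) (hf2 k j) x) fun j => ?_
    rw [hadd (hf1 k j) (hg1 k j) x, add_sub_cancel_left]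
    exact hpsd (hg1 k j) (hg2 k j) x

end Pool.Agent.helper83.SC
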